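import Pool.Agent.Q98.LC.Main

/-!
# A planar (2,2)-sparse graph that is no L-contact graph

The graph `G21` has 21 vertices and 40 edges: a hub `0`, five triangles `A_i B_i C_i`
(`A_i = 4 i + 1`, `B_i = 4 i + 2`, `C_i = 4 i + 3`) whose vertices are all joined to the hub, and
five vertices `W_i = 4 i + 4` joined to `B_i` and to `A_{i+1}` (indices modulo 5).
-/

namespace Pool.Agent.Results.MP_d36e69_co.LContactFails

open Pool.Agent.Q98.LC

/-- The graph `G21` with 21 vertices and 40 edges has a straight line drawing in the plane without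
crossings (`IsPlaneDrawing`), every nonempty set `W` of its vertices spans at most `2 |W| - 2` edges
(`IsSparse`), and it is not an L-contact graph (`IsLContact`). -/
theorem result : G21.edgeSet.ncard = 40 ∧ (∃ pos : Fin 21 → ℝ × ℝ, IsPlaneDrawing G21 pos) ∧
    IsSparse G21 ∧ ¬ IsLContact G21 := by
  refine ⟨?_, ⟨pos, plane⟩, sparse, not_contact⟩
  have h : (G21.edgeFinset).card = 40 := by decide +kernel
  rw [← h, ← SimpleGraph.coe_edgeFinset, Set.ncard_coe_finset]

end Pool.Agent.Results.MP_d36e69_co.LContactFails
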